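import Mathlib
import Pool.Agent.TH813.Ros
import Pool.Agent.H135R2.VS.Der
import Pool.Agent.W2helper76.FR.Stm

/-!
# Logarithmic derivatives over a general algebraically closed field (piece L)

The proofs are those of `Pool/Agent/TH813/Ros.lean`, for a general algebraically closed field of
characteristic zero in place of the complex numbers.
-/

set_option autoImplicit false
set_option linter.unusedSectionVars false

namespace Pool.Agent.W2helper5.FR

open Polynomial Finset
open Pool.Agent.TH813.Ros (polyZero)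

variable {F : Type} [Field F] [IsAlgClosed F] [CharZero F]

/-- automorphisms whose products give norms -/
theorem norms {E : Type*} [Field E] [Algebra E F] [CharZero E] [Algebra.IsAlgebraic E F]
    {n : ℕ} (u : Fin n → F) :
    ∃ (ι : Type) (_ : Fintype ι) (_ : Nonempty ι) (τ : ι → (F ≃ₐ[E] F)),
      ∀ j, ∃ e : E, ∏ i, τ i (u j) = algebraMap E F e := by
  have : IsAlgClosure E F := ⟨inferInstance, inferInstance⟩
  have hN : Normal E F := IsAlgClosure.normal E F
  let L := IntermediateField.adjoin E (Set.range u)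
  have hL : FiniteDimensional E L := by
    apply IntermediateField.finiteDimensional_adjoin
    intro x _
    exact (Algebra.IsAlgebraic.isAlgebraic x).isIntegral
  let NC := IntermediateField.normalClosure E L F
  have hF1 : FiniteDimensional E NC := inferInstance
  have hF2 : Normal E NC := inferInstance
  have hG : IsGalois E NC := ⟨⟩
  have hLF : L ≤ NC := by
    intro y hy
    exact L.val.fieldRange_le_normalClosure ⟨⟨y, hy⟩, rfl⟩
  refine ⟨NC ≃ₐ[E] NC, inferInstance, ⟨AlgEquiv.refl⟩, fun σ => AlgEquiv.liftNormal σ F,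
    fun j => ?_⟩
  have huj : u j ∈ NC := hLF (IntermediateField.subset_adjoin _ _ ⟨j, rfl⟩)
  refine ⟨Algebra.norm E (⟨u j, huj⟩ : NC), ?_⟩
  have h1 := Algebra.norm_eq_prod_automorphisms E (⟨u j, huj⟩ : NC)
  have h2 := congrArg (algebraMap NC F) h1
  rw [map_prod, ← IsScalarTower.algebraMap_apply] at h2
  rw [h2]
  refine prod_congr rfl (fun σ _ => ?_)
  exact AlgEquiv.liftNormal_commutes σ F (⟨u j, huj⟩ : NC)


section one

variable {K₁ : Type*} [Field K₁] [Algebra K₁ F] [CharZero K₁]

/-- a derivation is determined by its value at `x` -/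
theorem der_unique {x : F} (halg : Algebra.IsAlgebraic (IntermediateField.adjoin K₁ {x}) F)
    (D : Derivation K₁ F F) (h : D x = 0) (w : F) : D w = 0 := by
  apply Pool.Agent.H327R2.SC.der_alg (IntermediateField.adjoin K₁ {x}) D ?_
    (halg.isAlgebraic w)
  intro y hy
  induction hy using IntermediateField.adjoin_induction with
  | mem z hz => rw [Set.mem_singleton_iff.1 hz]; exact h
  | algebraMap a => exact D.map_algebraMap a
  | add a b _ _ ha hb => rw [map_add, ha, hb, add_zero]
  | inv a _ ha => rw [Derivation.leibniz_inv, ha, smul_zero]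
  | mul a b _ _ ha hb => rw [Derivation.leibniz, ha, hb, smul_zero, smul_zero, add_zero]

/-- the derivation commutes with the automorphisms -/
theorem der_comm {x : F} (halg : Algebra.IsAlgebraic (IntermediateField.adjoin K₁ {x}) F)
    (D : Derivation K₁ F F) {e : IntermediateField.adjoin K₁ {x}} (h : D x = e)
    (τ : F ≃ₐ[IntermediateField.adjoin K₁ {x}] F) (w : F) : D (τ w) = τ (D w) := by
  let D' : Derivation K₁ F F := Derivation.mk'
    { toFun := fun w => τ.symm (D (τ w))
      map_add' := fun a b => by simp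
      map_smul' := fun k w => by
        have h1 : ∀ w : F, τ (k • w) = k • τ w := fun w => by
          rw [Algebra.smul_def, Algebra.smul_def, map_mul]
          congr 1
          exact τ.commutes (algebraMap K₁ _ k)
        have h2 : ∀ w : F, τ.symm (k • w) = k • τ.symm w := fun w => by
          rw [Algebra.smul_def, Algebra.smul_def, map_mul]
          congr 1
          exact τ.symm.commutes (algebraMap K₁ _ k)
        rw [h1, D.map_smul, h2, RingHom.id_apply] }
    (fun a b => by
      change τ.symm (D (τ (a * b))) = a • τ.symm (D (τ b)) + b • τ.symm (D (τ a))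
      rw [map_mul, D.leibniz, map_add, smul_eq_mul, smul_eq_mul, map_mul, map_mul,
        AlgEquiv.symm_apply_apply, AlgEquiv.symm_apply_apply, smul_eq_mul, smul_eq_mul])
  have h0 : ∀ w, D' w = τ.symm (D (τ w)) := fun _ => rfl
  have hx : (D' - D) x = 0 := by
    rw [Derivation.sub_apply, h0]
    have e1 : τ x = x := τ.commutes ⟨x, IntermediateField.mem_adjoin_simple_self K₁ x⟩
    rw [e1, h]
    have e2 : τ.symm (e : F) = e := τ.symm.commutes e
    rw [e2, sub_self]
  have h1 := der_unique halg (D' - D) hx w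
  rw [Derivation.sub_apply, h0, sub_eq_zero] at h1
  rw [← h1, AlgEquiv.apply_symm_apply]

omit [CharZero K₁] in
theorem der_aeval (D : Derivation K₁ F F) {x : F} (hx : D x = 1) (P : K₁[X]) :
    D (aeval x P) = aeval x (derivative P) := by
  rw [D.map_aeval, hx, smul_eq_mul, mul_one]

omit [CharZero K₁] in
/-- relations between logarithmic derivatives of rational functions, in terms of polynomials -/
theorem rat_rel (D : Derivation K₁ F F) {x : F} (hx : D x = 1) {n : ℕ} (N : Fin n → F)
    (hN : ∀ j, N j ∈ IntermediateField.adjoin K₁ {x}) (hN0 : ∀ j, N j ≠ 0) :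
    ∃ P Q : Fin n → K₁[X], (∀ j, P j ≠ 0) ∧ (∀ j, Q j ≠ 0) ∧ (∀ j, aeval x (P j) ≠ 0) ∧
      (∀ j, aeval x (Q j) ≠ 0) ∧
      ∀ j, D (N j) / N j = aeval x (derivative (P j)) / aeval x (P j) -
        aeval x (derivative (Q j)) / aeval x (Q j) := by
  have h1 : ∀ j, ∃ P Q : K₁[X], N j = aeval x P / aeval x Q := fun j =>
    (IntermediateField.mem_adjoin_simple_iff K₁ (N j)).1 (hN j)
  choose P Q hPQ using h1
  have hP : ∀ j, aeval x (P j) ≠ 0 := fun j h => hN0 j (by rw [hPQ, h, zero_div])
  have hQ : ∀ j, aeval x (Q j) ≠ 0 := fun j h => hN0 j (by rw [hPQ, h, div_zero])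
  refine ⟨P, Q, fun j h => hP j (by rw [h, map_zero]), fun j h => hQ j (by rw [h, map_zero]),
    hP, hQ, fun j => ?_⟩
  have e1 : D (aeval x (P j) / aeval x (Q j)) =
      (aeval x (derivative (P j)) * aeval x (Q j) - aeval x (P j) * aeval x (derivative (Q j))) /
        aeval x (Q j) ^ 2 := by
    rw [div_eq_mul_inv, Derivation.leibniz, Derivation.leibniz_inv, der_aeval D hx,
      der_aeval D hx]
    have := hQ j
    simp only [smul_eq_mul]
    field_simp
    ring
  rw [hPQ, e1]
  have := hP j
  have := hQ j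
  field_simp

/-- sums over the conjugates -/
theorem conj_sum {x : F} (halg : Algebra.IsAlgebraic (IntermediateField.adjoin K₁ {x}) F)
    (D : Derivation K₁ F F) {e : IntermediateField.adjoin K₁ {x}} (h : D x = e)
    {n : ℕ} (u : Fin n → F) (hu : ∀ j, u j ≠ 0) :
    ∃ (d : ℕ) (N : Fin n → F), 0 < d ∧ (∀ j, N j ∈ IntermediateField.adjoin K₁ {x}) ∧
      (∀ j, N j ≠ 0) ∧ ∀ (β : Fin n → K₁) (g : IntermediateField.adjoin K₁ {x}),
        ∑ j, algebraMap K₁ F (β j) * (D (u j) / u j) = g →
        ∑ j, algebraMap K₁ F (β j) * (D (N j) / N j) = (d : F) * g := by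
  have : CharZero (IntermediateField.adjoin K₁ {x}) :=
    charZero_of_injective_algebraMap (algebraMap K₁ _).injective
  obtain ⟨ι, hι, hne, τ, hτ⟩ := norms (E := IntermediateField.adjoin K₁ {x}) u
  refine ⟨Fintype.card ι, fun j => ∏ i, τ i (u j), Fintype.card_pos, fun j => ?_, fun j => ?_,
    fun β g hg => ?_⟩
  · obtain ⟨e, he⟩ := hτ j
    have : (e : F) ∈ IntermediateField.adjoin K₁ {x} := e.2
    change ∏ i, τ i (u j) ∈ _
    rw [he]; exact this
  · exact prod_ne_zero_iff.2 (fun i _ => (map_ne_zero (τ i)).2 (hu j))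
  · have h1 : ∀ j, D (∏ i, τ i (u j)) / ∏ i, τ i (u j) = ∑ i, τ i (D (u j) / u j) := by
      intro j
      have h2 := Pool.Agent.H327R2.SC.logder D univ (fun i => τ i (u j))
        (fun i _ => (map_ne_zero (τ i)).2 (hu j)) (fun _ => 1)
      simp only [zpow_one, Int.cast_one, one_mul] at h2
      rw [h2, mul_div_cancel_left₀ _ (prod_ne_zero_iff.2
        (fun i _ => (map_ne_zero (τ i)).2 (hu j)))]
      refine sum_congr rfl (fun i _ => ?_)
      rw [der_comm halg D h, map_div₀]
    have h3 : ∀ i, ∑ j, algebraMap K₁ F (β j) * τ i (D (u j) / u j) = g := by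
      intro i
      have e2 : τ i (g : F) = g := (τ i).commutes g
      rw [← e2, ← hg, map_sum]
      refine sum_congr rfl (fun j _ => ?_)
      rw [map_mul]
      congr 1
      exact ((τ i).commutes (algebraMap K₁ _ (β j))).symm
    calc ∑ j, algebraMap K₁ F (β j) * (D (∏ i, τ i (u j)) / ∏ i, τ i (u j))
        = ∑ j, ∑ i, algebraMap K₁ F (β j) * τ i (D (u j) / u j) := by
          refine sum_congr rfl (fun j _ => ?_)
          rw [h1, mul_sum]
      _ = ∑ i, ∑ j, algebraMap K₁ F (β j) * τ i (D (u j) / u j) := sum_comm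
      _ = ∑ _i : ι, (g : F) := sum_congr rfl (fun i _ => h3 i)
      _ = _ := by rw [sum_const, nsmul_eq_mul, card_univ]

omit [CharZero K₁] in
/-- from an identity in `F` to an identity of polynomials -/
theorem poly_of_eq {x : F} (hx : Transcendental K₁ x) {ι : Type*} [Fintype ι] [DecidableEq ι]
    (R : ι → K₁[X]) (hR : ∀ i, aeval x (R i) ≠ 0) (γ : ι → K₁) (c : K₁)
    (h : ∑ i, algebraMap K₁ F (γ i) * (aeval x (derivative (R i)) / aeval x (R i)) =
      algebraMap K₁ F c) :
    ∑ i, C (γ i) * (derivative (R i) * ∏ l ∈ univ.erase i, R l) = C c * ∏ l, R l := by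
  rw [← sub_eq_zero]
  by_contra hne
  apply hx
  refine ⟨_, hne, ?_⟩
  rw [map_sub, map_mul, aeval_C, ← h, map_sum, sum_mul, sub_eq_zero]
  refine sum_congr rfl (fun i _ => ?_)
  rw [map_mul, map_mul, aeval_C, map_prod, map_prod,
    ← mul_prod_erase univ (fun l => aeval x (R l)) (mem_univ i)]
  have := hR i
  field_simp

theorem zero_rel {y : F} (hy : Transcendental K₁ y)
    (halg : Algebra.IsAlgebraic (IntermediateField.adjoin K₁ {y}) F)
    (D : Derivation K₁ F F) (h : D y = 1) {n : ℕ} (u : Fin n → F) (hu : ∀ j, u j ≠ 0) :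
    ∃ (d : ℕ) (e : Fin n → ℤ), 0 < d ∧
      (∀ β : Fin n → K₁, ∑ j, algebraMap K₁ F (β j) * (D (u j) / u j) = 0 →
        ∑ j, β j * (e j : K₁) = 0) ∧
      ∀ a : Fin n → ℤ, ∑ j, (a j : F) * (D (u j) / u j) = 1 / y → ∑ j, a j * e j = d := by
  classical
  have hy0 : y ≠ 0 := by
    rintro rfl
    exact hy isAlgebraic_zero
  obtain ⟨d, N, hd, hN, hN0, hrel⟩ := conj_sum halg D (e := 1) (by rw [h]; rfl) u hu
  obtain ⟨P, Q, hP, hQ, hP', hQ', hPQ⟩ := rat_rel D h N hN hN0
  refine ⟨d, fun j => ((P j).rootMultiplicity 0 : ℤ) - ((Q j).rootMultiplicity 0 : ℤ), hd,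
    fun β hβ => ?_, fun a ha => ?_⟩
  · have h1 := hrel β 0 (by rw [hβ]; rfl)
    have h2 := poly_of_eq hy (ι := Fin n ⊕ Fin n) (Sum.elim P Q) (by
      rintro (j | j)
      · exact hP' j
      · exact hQ' j) (Sum.elim β (fun j => -β j)) 0 (by
      rw [Fintype.sum_sum_type, map_zero]
      simp only [Sum.elim_inl, Sum.elim_inr, map_neg, neg_mul, sum_neg_distrib]
      have h3 : ((0 : IntermediateField.adjoin K₁ {y}) : F) = 0 := rfl
      rw [h3, mul_zero] at h1
      rw [← h1, ← sub_eq_add_neg, ← sum_sub_distrib]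
      refine sum_congr rfl (fun j _ => ?_)
      rw [hPQ, mul_sub])
    rw [C_0, zero_mul] at h2
    have h4 := polyZero (Sum.elim P Q) (by
      rintro (j | j)
      · exact hP j
      · exact hQ j) _ h2
    rw [Fintype.sum_sum_type] at h4
    simp only [Sum.elim_inl, Sum.elim_inr, neg_mul, sum_neg_distrib] at h4
    rw [← sub_eq_add_neg, ← sum_sub_distrib] at h4
    refine Eq.trans (sum_congr rfl (fun j _ => ?_)) h4
    push_cast
    ring
  · have hinv : (1 / y : F) = (((⟨y, IntermediateField.mem_adjoin_simple_self K₁ y⟩ :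
        IntermediateField.adjoin K₁ {y})⁻¹ : IntermediateField.adjoin K₁ {y}) : F) := by
      rw [one_div]; rfl
    have h1 := hrel (fun j => (a j : K₁)) (⟨y, IntermediateField.mem_adjoin_simple_self K₁ y⟩ :
        IntermediateField.adjoin K₁ {y})⁻¹ (by
      rw [← hinv, ← ha]
      refine sum_congr rfl (fun j _ => ?_)
      rw [map_intCast])
    rw [← hinv] at h1
    have h2 := poly_of_eq hy (ι := Option (Fin n ⊕ Fin n))
      (fun o => o.elim X (Sum.elim P Q)) (by
      rintro (_ | (j | j))
      · simpa using hy0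
      · exact hP' j
      · exact hQ' j)
      (fun o => o.elim (-(d : K₁)) (Sum.elim (fun j => (a j : K₁)) (fun j => -(a j : K₁)))) 0 (by
      rw [Fintype.sum_option, Fintype.sum_sum_type, map_zero]
      simp only [Option.elim, Sum.elim_inl, Sum.elim_inr, map_neg, neg_mul, sum_neg_distrib,
        derivative_X, map_one, aeval_X, map_natCast]
      rw [← h1, ← sub_eq_add_neg (∑ j, _), ← sum_sub_distrib, neg_add_eq_zero]
      refine sum_congr rfl (fun j _ => ?_)
      rw [hPQ, mul_sub])
    rw [C_0, zero_mul] at h2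
    have h4 := polyZero (fun o : Option (Fin n ⊕ Fin n) => o.elim X (Sum.elim P Q)) (by
      rintro (_ | (j | j))
      · exact X_ne_zero
      · exact hP j
      · exact hQ j) _ h2
    rw [Fintype.sum_option, Fintype.sum_sum_type] at h4
    simp only [Option.elim, Sum.elim_inl, Sum.elim_inr, neg_mul, sum_neg_distrib] at h4
    have hX : (X : K₁[X]).rootMultiplicity 0 = 1 := by
      have := rootMultiplicity_X_sub_C_self (x := (0 : K₁))
      rwa [C_0, sub_zero] at this
    rw [hX] at h4
    have h5 : ((∑ j, a j * (((P j).rootMultiplicity 0 : ℤ) -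
        ((Q j).rootMultiplicity 0 : ℤ)) : ℤ) : K₁) = ((d : ℤ) : K₁) := by
      push_cast
      simp only [mul_sub, sum_sub_distrib]
      linear_combination h4
    exact_mod_cast h5

end one

/-- a large subfield over which `y` is transcendental -/
theorem exists_field {K : Type*} [Field K] [Algebra K F] [CharZero K] {y : F} (hy : Transcendental K y) :
    ∃ K₁ : IntermediateField K F, Transcendental K₁ y ∧
      Algebra.IsAlgebraic (IntermediateField.adjoin K₁ {y}) F := by
  classical
  have h1 : AlgebraicIndepOn K id ({y} : Set F) := by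
    have : AlgebraicIndependent K (fun _ : Unit => y) :=
      (algebraicIndependent_unique_type_iff).2 hy
    have h2 := this.coe_range
    rwa [Set.range_const] at h2
  obtain ⟨t, ht1, ht2⟩ := exists_isTranscendenceBasis_superset h1
  have hyt : y ∈ t := ht1 rfl
  refine ⟨IntermediateField.adjoin K (t \ {y}), ?_, ⟨fun w => ?_⟩⟩
  · have h3 := ht2.1.transcendental_adjoin (s := {z : t | (z : F) ≠ y}) (i := ⟨y, hyt⟩)
      (by simp)
    have h4 : (fun z : t => (z : F)) '' {z : t | (z : F) ≠ y} = t \ {y} := by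
      ext z
      simp only [Set.mem_image, Set.mem_ofPred_eq, Set.mem_sdiff, Set.mem_singleton_iff]
      constructor
      · rintro ⟨z', h5, rfl⟩
        exact ⟨z'.2, h5⟩
      · rintro ⟨h5, h6⟩
        exact ⟨⟨z, h5⟩, h6, rfl⟩
    rw [h4] at h3
    intro h5
    exact h3 (IntermediateField.isAlgebraic_adjoin_iff.1 h5)
  · have h5 := ht2.isAlgebraic_field
    rw [Subtype.range_coe] at h5
    obtain ⟨p, hp, hpw⟩ := h5.isAlgebraic w
    have hle : ∀ z ∈ IntermediateField.adjoin K t,
        z ∈ IntermediateField.adjoin (IntermediateField.adjoin K (t \ {y})) {y} := by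
      intro z hz
      induction hz using IntermediateField.adjoin_induction with
      | mem z hz =>
        by_cases hzy : z = y
        · rw [hzy]
          exact IntermediateField.mem_adjoin_simple_self _ y
        · exact IntermediateField.algebraMap_mem _
            (⟨z, IntermediateField.subset_adjoin _ _ ⟨hz, hzy⟩⟩ :
              IntermediateField.adjoin K (t \ {y}))
      | algebraMap a =>
        exact IntermediateField.algebraMap_mem _
          (algebraMap K (IntermediateField.adjoin K (t \ {y})) a)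
      | add a b _ _ ha hb => exact add_mem ha hb
      | inv a _ ha => exact inv_mem ha
      | mul a b _ _ ha hb => exact mul_mem ha hb
    let φ : IntermediateField.adjoin K t →+*
        IntermediateField.adjoin (IntermediateField.adjoin K (t \ {y})) {y} :=
      { toFun := fun z => ⟨z, hle z z.2⟩
        map_one' := rfl
        map_mul' := fun a b => rfl
        map_zero' := rfl
        map_add' := fun a b => rfl }
    refine ⟨p.map φ, (Polynomial.map_ne_zero_iff φ.injective).2 hp, ?_⟩
    rw [aeval_def, eval₂_map]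
    exact hpw


/-- a derivation over a large field -/
theorem exists_setup {K : Type*} [Field K] [Algebra K F] [CharZero K] {y : F}
    (hy : Transcendental K y) :
    ∃ (K₁ : IntermediateField K F) (D : Derivation K₁ F F), Transcendental K₁ y ∧
      Algebra.IsAlgebraic (IntermediateField.adjoin K₁ {y}) F ∧ D y = 1 := by
  obtain ⟨K₁, h1, h2⟩ := exists_field (K := K) hy
  have : CharZero K₁ := charZero_of_injective_algebraMap (algebraMap K K₁).injective
  have hind : AlgebraicIndependent K₁ (fun _ : Unit => y) :=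
    (algebraicIndependent_unique_type_iff).2 h1
  obtain ⟨D, hD⟩ := Pool.Agent.H135R2.VS.exists_der hind (fun _ => (1 : F))
  exact ⟨K₁, D, h1, h2, hD ()⟩

open Pool.Agent.W2helper76.FR in
/-- **Piece L.** -/
theorem logStm : LogStm := by
  intro κ C _ _ _ _ _ _ t u hu β hβ h
  have : CharZero C := charZero_of_injective_algebraMap (algebraMap κ C).injective
  obtain ⟨j₀, hj₀⟩ := Function.ne_iff.1 hβ
  obtain ⟨ψ, hψ⟩ : ∃ ψ : κ →ₗ[ℚ] ℚ, ψ (β j₀) ≠ 0 := by
    by_contra hcon
    push Not at hcon
    exact hj₀ ((Module.forall_dual_apply_eq_zero_iff ℚ (β j₀)).1 hcon)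
  -- a common denominator
  obtain ⟨m, hm, a, ha⟩ : ∃ (m : ℕ) (_ : 0 < m) (a : Fin t → ℤ), ∀ j, (a j : ℚ) = m * ψ (β j) := by
    refine ⟨∏ j, (ψ (β j)).den, Finset.prod_pos (fun j _ => (ψ (β j)).den_pos),
      fun j => (ψ (β j)).num * ∏ l ∈ univ.erase j, ((ψ (β l)).den : ℤ), fun j => ?_⟩
    rw [← mul_prod_erase univ (fun l => (ψ (β l)).den) (mem_univ j)]
    push_cast
    have h1 : ((ψ (β j)).den : ℚ) * ψ (β j) = (ψ (β j)).num := Rat.den_mul_eq_num _
    rw [← h1]
    ring
  have hmq : (m : ℚ) ≠ 0 := by exact_mod_cast hm.ne'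
  have ha0 : a ≠ 0 := by
    intro h0
    have h1 := ha j₀
    rw [h0, Pi.zero_apply, Int.cast_zero] at h1
    exact (mul_ne_zero hmq hψ) h1.symm
  set y := ∏ j, u j ^ a j with hy
  have hy0 : y ≠ 0 := prod_ne_zero_iff.2 (fun j _ => zpow_ne_zero _ (hu j))
  by_cases halg : IsAlgebraic κ y
  · have hdeg := IsAlgClosed.degree_eq_one_of_irreducible κ (minpoly.irreducible halg.isIntegral)
    obtain ⟨b, hb⟩ := minpoly.degree_eq_one_iff.1 hdeg
    exact ⟨a, b, ha0, hb.symm⟩
  have hlog : ∀ D : Derivation κ C C, D y = y * ∑ j, (a j : C) * (D (u j) / u j) := fun D =>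
    Pool.Agent.H327R2.SC.logder D univ u (fun j _ => hu j) a
  exfalso
  obtain ⟨K₁, D, h1, h2, h3⟩ := exists_setup (K := κ) halg
  have : CharZero K₁ := charZero_of_injective_algebraMap (algebraMap κ K₁).injective
  obtain ⟨d, e, hd, he1, he2⟩ := zero_rel h1 h2 D h3 u hu
  have h4 := he1 (fun j => algebraMap κ K₁ (β j)) (h (D.restrictScalars κ))
  have h5 : ∑ j, β j * (e j : κ) = 0 := by
    apply (algebraMap κ K₁).injective
    rw [map_sum, map_zero, ← h4]
    refine sum_congr rfl (fun j _ => ?_)
    rw [map_mul, map_intCast]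
  have h6 : ∑ j, ψ (β j) * (e j : ℚ) = 0 := by
    have := congrArg ψ h5
    rw [map_sum, map_zero] at this
    rw [← this]
    refine sum_congr rfl (fun j _ => ?_)
    have e1 : β j * (e j : κ) = (e j : ℚ) • β j := by
      rw [Rat.smul_def]; push_cast; ring
    rw [e1, map_smul, smul_eq_mul, mul_comm]
  have h7 := he2 a (by
    have h8 := hlog (D.restrictScalars κ)
    have h9 : (D.restrictScalars κ) y = D y := rfl
    rw [h9, h3] at h8
    have h10 : ∑ j, (a j : C) * (D (u j) / u j) = 1 / y := by
      rw [eq_div_iff hy0, mul_comm]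
      exact h8.symm
    exact h10)
  have h8 : ((∑ j, a j * e j : ℤ) : ℚ) = 0 := by
    push_cast
    have : ∑ j, (a j : ℚ) * (e j : ℚ) = m * ∑ j, ψ (β j) * (e j : ℚ) := by
      rw [mul_sum]
      refine sum_congr rfl (fun j _ => ?_)
      rw [ha, mul_assoc]
    rw [this, h6, mul_zero]
  rw [h7] at h8
  have : (d : ℤ) = 0 := by exact_mod_cast h8
  omega

end Pool.Agent.W2helper5.FR
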